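import Pool.Agent.H888.DH.Loc10
import Pool.Agent.H888.DH.Loc11

open Filter Topology

namespace Pool.Agent.Results.MP_e426f4_ag.DiagonalHasse100

/-- The projective hypersurface `∑ aᵢ xᵢ ^ k = 0` has a point over the field `F`. -/
def HasPoint (F : Type) [Field F] (k s : ℕ) (a : Fin s → ℤ) : Prop :=
  ∃ x : Fin s → F, x ≠ 0 ∧ ∑ i, (a i : F) * x i ^ k = 0

/-- Everywhere locally soluble: points over `ℝ` and over `ℚ_p` for every prime `p`. -/
def ELS (k s : ℕ) (a : Fin s → ℤ) : Prop :=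
  HasPoint ℝ k s a ∧ ∀ (p : ℕ) [Fact p.Prime], HasPoint ℚ_[p] k s a

/-- A nonzero integral zero `x` with `|xᵢ| ^ k ≤ H` for all `i`. -/
def HasSmallZero (k s H : ℕ) (a : Fin s → ℤ) : Prop :=
  ∃ x : Fin s → ℤ, x ≠ 0 ∧ (∀ i, |x i| ^ k ≤ (H : ℤ)) ∧ ∑ i, a i * x i ^ k = 0

/-- Everywhere locally soluble smooth diagonal hypersurfaces with coefficients bounded by `H`. -/
def elsSet (k s H : ℕ) : Set (Fin s → ℤ) :=
  {a | (∀ i, a i ≠ 0 ∧ |a i| ≤ (H : ℤ)) ∧ ELS k s a}

/-- Those members of `elsSet` which have a small rational point. -/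
def solSet (k s H : ℕ) : Set (Fin s → ℤ) :=
  {a | a ∈ elsSet k s H ∧ HasSmallZero k s H a}

open Pool.Agent.H888.DH in
/-- For `k ≥ 3` and `s ≥ 2k + 2`, one hundred percent of the everywhere locally soluble smooth
diagonal hypersurfaces of degree `k` in `s` variables over `ℚ` satisfy the Hasse principle. -/
theorem result (k s : ℕ) (hk : 3 ≤ k) (hs : 2 * k + 2 ≤ s) :
    Tendsto (fun H : ℕ => ((solSet k s H).ncard : ℝ) / ((elsSet k s H).ncard : ℝ)) atTop (𝓝 1) := by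
  classical
  obtain ⟨r', rfl⟩ : ∃ r', s = r' + 2 := ⟨s - 2, by omega⟩
  obtain ⟨c, hc, H1, hpos⟩ := positive_prop k r' hk (by omega)
  rw [Metric.tendsto_atTop]
  intro ε hε
  obtain ⟨H0, hbd⟩ := main_bound k (r' + 1) hk (by omega) (ε * c / 2) (by positivity)
  refine ⟨max H0 H1, ?_⟩
  intro H hH
  have hH0 : H0 ≤ H := (le_max_left _ _).trans hH
  have hH1 : H1 ≤ H := (le_max_right _ _).trans hH
  set E : Finset (Fin (r' + 2) → ℤ) :=
    (boxA (r' + 2) H).filter (fun a => (∀ i, a i ≠ 0) ∧ ELS k (r' + 2) a) with hE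
  set G : Finset (Fin (r' + 2) → ℤ) := E.filter (fun a => HasSmallZero k (r' + 2) H a) with hG
  set N : Finset (Fin (r' + 2) → ℤ) := E.filter (fun a => ¬ HasSmallZero k (r' + 2) H a) with hN
  have hEset : elsSet k (r' + 2) H = (E : Set (Fin (r' + 2) → ℤ)) := by
    ext a
    rw [hE]
    simp only [elsSet, Set.mem_setOf_eq, Finset.coe_filter, mem_boxA]
    constructor
    · rintro ⟨h1, h2⟩
      exact ⟨fun i => (h1 i).2, fun i => (h1 i).1, h2⟩
    · rintro ⟨h1, h2, h3⟩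
      exact ⟨fun i => ⟨h2 i, h1 i⟩, h3⟩
  have hGset : solSet k (r' + 2) H = (G : Set (Fin (r' + 2) → ℤ)) := by
    ext a
    rw [hG]
    simp only [solSet, Set.mem_setOf_eq, Finset.coe_filter]
    rw [hEset]
    rfl
  rw [hEset, hGset, Set.ncard_coe_finset, Set.ncard_coe_finset]
  have hsum : (G.card : ℝ) + N.card = E.card := by
    exact_mod_cast Finset.card_filter_add_card_filter_not (s := E) (fun a => HasSmallZero k (r' + 2) H a)
  obtain ⟨S, hS, hScard⟩ := hpos H hH1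
  have hSE : S ⊆ E := by
    intro a ha
    obtain ⟨h1, h2, h3, h4⟩ := hS a ha
    rw [hE, Finset.mem_filter]
    exact ⟨h1, h2, h4, fun p hp => h3 p hp⟩
  have hElow : c * (2 * (H : ℝ) + 1) ^ (r' + 2) ≤ E.card :=
    hScard.trans (by exact_mod_cast Finset.card_le_card hSE)
  have hNup : (N.card : ℝ) ≤ ε * c / 2 * (H : ℝ) ^ (r' + 2) := by
    apply hbd H hH0 N
    intro a ha
    rw [hN, Finset.mem_filter, hE, Finset.mem_filter] at ha
    obtain ⟨⟨h1, h2, h3, h4⟩, h5⟩ := ha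
    exact ⟨h1, fun p hp => h4 p, h3, h2, h5⟩
  have hEpos : (0 : ℝ) < E.card := lt_of_lt_of_le (by positivity) hElow
  have hlt : (N.card : ℝ) < ε * E.card := by
    calc (N.card : ℝ) ≤ ε * c / 2 * (H : ℝ) ^ (r' + 2) := hNup
      _ ≤ ε * c / 2 * (2 * (H : ℝ) + 1) ^ (r' + 2) := by
          gcongr
          have : (0 : ℝ) ≤ H := Nat.cast_nonneg H
          linarith
      _ = ε / 2 * (c * (2 * (H : ℝ) + 1) ^ (r' + 2)) := by ring
      _ ≤ ε / 2 * E.card := by gcongr
      _ < ε * E.card := by nlinarith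
  rw [Real.dist_eq]
  have h6 : (G.card : ℝ) / E.card - 1 = -(N.card / E.card) := by
    rw [← hsum]
    have : (G.card : ℝ) + N.card ≠ 0 := by rw [hsum]; exact hEpos.ne'
    field_simp
    ring
  rw [h6, abs_neg, abs_of_nonneg (by positivity), div_lt_iff₀ hEpos]
  exact hlt

end Pool.Agent.Results.MP_e426f4_ag.DiagonalHasse100
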